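import Pool.Agent.CS4.Cls

/-!
# CS8: double edges and the number of edges (as CS4/Cls, with the representatives)
-/

set_option autoImplicit false

open Finset

noncomputable section

namespace Pool.CS8

open Pool.CS4

open Classical in
/-- as `CS4.cls` -/
theorem cls2 (d : ℕ) (V : Finset (E d)) (hV : IsCSSimplicial d V) (h3 : 3 ≤ V.card) :
    ∃ X : Finset (E d), X ⊆ V ∧ (∀ x ∈ X, -x ∉ X) ∧ (∀ v ∈ V, v ∈ X ∨ -v ∈ X) ∧
      V.card = 2 * X.card ∧
      fv V 2 + X.card ≤ X.card ^ 2 +
        ((X ×ˢ X).filter fun z => z.1 ≠ z.2 ∧ Dbl X z.1 z.2).card := by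
  classical
  have h0 := cls_zero hV h3
  have hs := hV.symm
  obtain ⟨X, hX, hX1, hX2⟩ := cls_reps V hs h0
  refine ⟨X, hX, hX1, hX2, cls_card hs hX hX1 hX2, ?_⟩
  -- the ordered edges
  set T : Finset (E d × E d) := (V ×ˢ V).filter fun z => z.1 ≠ z.2 ∧ IsFace V {z.1, z.2} with hT
  have hT1 : 2 * fv V 2 ≤ T.card := by
    set S : Finset (Finset (E d)) := V.powerset.filter fun F => IsFace V F ∧ F ≠ V ∧ F.card = 2
      with hS
    have hfv : fv V 2 = S.card := by
      unfold fv
      congr 1
    rw [hfv, Finset.card_eq_sum_card_fiberwise (s := T) (t := S) (f := fun z => {z.1, z.2})]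
    · rw [mul_comm, ← smul_eq_mul, ← Finset.sum_const]
      apply Finset.sum_le_sum
      intro F hF
      rw [hS, Finset.mem_filter] at hF
      obtain ⟨hF1, hF2, -, hF4⟩ := hF
      obtain ⟨x, y, hxy, rfl⟩ := Finset.card_eq_two.1 hF4
      have hx : x ∈ V := hF2.1 (by simp)
      have hy : y ∈ V := hF2.1 (by simp)
      have h5 : ({(x, y), (y, x)} : Finset (E d × E d)).card = 2 := by
        apply Finset.card_pair
        intro h
        exact hxy (congrArg Prod.fst h)
      rw [← h5]
      apply Finset.card_le_card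
      intro z hz
      rw [Finset.mem_filter, hT, Finset.mem_filter, Finset.mem_product]
      rcases Finset.mem_insert.1 hz with rfl | hz
      · exact ⟨⟨⟨hx, hy⟩, hxy, hF2⟩, rfl⟩
      · rw [Finset.mem_singleton.1 hz]
        refine ⟨⟨⟨hy, hx⟩, hxy.symm, ?_⟩, Finset.pair_comm _ _⟩
        rw [Finset.pair_comm]
        exact hF2
    · intro z hz
      rw [Finset.mem_coe, hT, Finset.mem_filter, Finset.mem_product] at hz
      rw [Finset.mem_coe, hS, Finset.mem_filter, Finset.mem_powerset]
      refine ⟨hz.2.2.1, hz.2.2, ?_, Finset.card_pair hz.2.1⟩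
      intro h
      have h' : ({z.1, z.2} : Finset (E d)) = V := h
      have := Finset.card_pair hz.2.1
      rw [h'] at this
      omega
  -- the fibres
  set f : E d × E d → Finset (E d × E d) := fun z =>
    (({z.1, -z.1} : Finset (E d)) ×ˢ ({z.2, -z.2} : Finset (E d))) ∩ T with hf
  have hT2 : T ⊆ (X ×ˢ X).biUnion f := by
    intro z hz
    have hz' := hz
    rw [hT, Finset.mem_filter, Finset.mem_product] at hz'
    rw [Finset.mem_biUnion]
    have key : ∀ v ∈ V, ∃ x ∈ X, v ∈ ({x, -x} : Finset (E d)) := by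
      intro v hv
      rcases hX2 v hv with h | h
      · exact ⟨v, h, by simp⟩
      · exact ⟨-v, h, by simp⟩
    obtain ⟨a, ha, ha'⟩ := key z.1 hz'.1.1
    obtain ⟨b, hb, hb'⟩ := key z.2 hz'.1.2
    refine ⟨(a, b), Finset.mem_product.2 ⟨ha, hb⟩, ?_⟩
    rw [hf, Finset.mem_inter]
    exact ⟨Finset.mem_product.2 ⟨ha', hb'⟩, hz⟩
  have hneg : ∀ x y : E d, IsFace V {x, y} → IsFace V {-x, -y} := fun x y h => cls_neg hs h
  have hneg' : ∀ x y : E d, IsFace V {-x, -y} → IsFace V {x, y} := fun x y h => by
    have := cls_neg hs h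
    rwa [neg_neg, neg_neg] at this
  have hf1 : ∀ z ∈ X ×ˢ X, (f z).card ≤
      2 * ((if z.1 ≠ z.2 then 1 else 0) + (if z.1 ≠ z.2 ∧ Dbl X z.1 z.2 then 1 else 0)) := by
    rintro ⟨a, b⟩ hz
    obtain ⟨ha, hb⟩ := Finset.mem_product.1 hz
    simp only at ha hb ⊢
    by_cases hab : a = b
    · subst hab
      have : f (a, a) = ∅ := by
        rw [Finset.eq_empty_iff_forall_notMem]
        rintro ⟨x, y⟩ h
        rw [hf, Finset.mem_inter, Finset.mem_product, hT, Finset.mem_filter] at h
        obtain ⟨⟨h1, h2⟩, -, h4, h5⟩ := h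
        simp only [Finset.mem_insert, Finset.mem_singleton] at h1 h2 h4 h5
        have h6 := (cls_edge hs h0 h3 h5).1
        rcases h1 with rfl | rfl <;> rcases h2 with rfl | rfl
        · exact h4 rfl
        · exact h6 rfl
        · exact h6 (neg_neg _).symm
        · exact h4 rfl
      rw [this]
      simp
    · by_cases hD : Dbl X a b
      · rw [if_pos hab, if_pos ⟨hab, hD⟩]
        refine (Finset.card_le_card Finset.inter_subset_left).trans ?_
        rw [Finset.card_product]
        have h1 := Finset.card_le_two (a := a) (b := -a)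
        have h2 := Finset.card_le_two (a := b) (b := -b)
        nlinarith
      · rw [if_pos hab, if_neg (fun h => hD h.2)]
        by_cases h1 : IsFace V {a, b}
        · have h2 : ¬ IsFace V {a, -b} := fun h2 => hD (cls_dbl hs h0 h3 hX hX1 ha hb h1 h2)
          have h4 : f (a, b) ⊆ {(a, b), (-a, -b)} := by
            rintro ⟨x, y⟩ h
            rw [hf, Finset.mem_inter, Finset.mem_product, hT, Finset.mem_filter] at h
            obtain ⟨⟨h5, h6⟩, -, -, h7⟩ := h
            simp only [Finset.mem_insert, Finset.mem_singleton] at h5 h6 h7 ⊢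
            rcases h5 with rfl | rfl <;> rcases h6 with rfl | rfl
            · simp
            · exact absurd h7 h2
            · exact absurd (by simpa using hneg _ _ h7) h2
            · simp
          exact (Finset.card_le_card h4).trans Finset.card_le_two
        · have h4 : f (a, b) ⊆ {(a, -b), (-a, b)} := by
            rintro ⟨x, y⟩ h
            rw [hf, Finset.mem_inter, Finset.mem_product, hT, Finset.mem_filter] at h
            obtain ⟨⟨h5, h6⟩, -, -, h7⟩ := h
            simp only [Finset.mem_insert, Finset.mem_singleton] at h5 h6 h7 ⊢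
            rcases h5 with rfl | rfl <;> rcases h6 with rfl | rfl
            · exact absurd h7 h1
            · simp
            · simp
            · exact absurd (hneg' _ _ h7) h1
          exact (Finset.card_le_card h4).trans Finset.card_le_two
  have h4 : T.card ≤ ∑ z ∈ X ×ˢ X,
      2 * ((if z.1 ≠ z.2 then 1 else 0) + (if z.1 ≠ z.2 ∧ Dbl X z.1 z.2 then 1 else 0)) :=
    (Finset.card_le_card hT2).trans (Finset.card_biUnion_le.trans (Finset.sum_le_sum hf1))
  rw [← Finset.mul_sum, Finset.sum_add_distrib, ← Finset.card_filter, ← Finset.card_filter] at h4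
  have h5 : ((X ×ˢ X).filter fun z => z.1 ≠ z.2).card + X.card = X.card ^ 2 := by
    have h6 : ((X ×ˢ X).filter fun z => z.1 ≠ z.2) = X.offDiag := by
      ext z
      simp only [Finset.mem_filter, Finset.mem_product, Finset.mem_offDiag]
      tauto
    rw [h6, Finset.offDiag_card]
    have : X.card ≤ X.card * X.card := Nat.le_mul_self _
    rw [pow_two]
    omega
  convert (show fv V 2 + X.card ≤ X.card ^ 2 +
    ((X ×ˢ X).filter fun z => z.1 ≠ z.2 ∧ Dbl X z.1 z.2).card by omega) using 3


end Pool.CS8
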