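import Pool.Agent.CS8.Tur
import Pool.Agent.CS8.Cls2
import Pool.Agent.CS4.Up
import Pool.Agent.CS4.Gg2d

/-!
The upper bound for `g_2` from a bound for the cliques of doubly joined vertices.
-/

set_option autoImplicit false

open Finset

noncomputable section

namespace Pool.CS8

open Pool.CS4

/-- The upper bound for `g_2`, if no `r + 1` representatives are pairwise doubly joined. -/
theorem cou (d : ℕ) (hd : 2 ≤ d) (V : Finset (E d)) (hV : IsCSSimplicial d V) (h3 : 3 ≤ V.card)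
    (r : ℕ) (hr : 0 < r)
    (hcl : ∀ X ⊆ V, (∀ x ∈ X, -x ∉ X) → (∀ v ∈ V, v ∈ X ∨ -v ∈ X) → V.card = 2 * X.card →
      ∀ T ⊆ X, T.card = r + 1 → ∃ x ∈ T, ∃ y ∈ T, x ≠ y ∧ ¬ Dbl X x y) :
    (gv d V 2 : ℝ) ≤ (1 / 2 - 1 / (4 * (r : ℝ))) * (V.card : ℝ) ^ 2 -
      ((d : ℝ) + 1 / 2) * (V.card : ℝ) + (d : ℝ) * ((d : ℝ) + 1) / 2 := by
  classical
  obtain ⟨X, hX, hX1, hX2, hc, hle⟩ := cls2 d V hV h3
  have h1 := tur (up_graph X) X r hr (by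
    intro T hT hTc
    obtain ⟨x, hx, y, hy, hxy, hn⟩ := hcl X hX hX1 hX2 hc T hT hTc
    exact ⟨x, hx, y, hy, hxy, fun h => hn h.2⟩)
  obtain ⟨D, hD⟩ : ∃ D : ℕ, D = ((X ×ˢ X).filter fun z => (up_graph X).Adj z.1 z.2).card :=
    ⟨_, rfl⟩
  have hD' : fv V 2 + X.card ≤ X.card ^ 2 + D := by
    rw [hD]
    refine hle.trans (Nat.add_le_add_left (Finset.card_le_card ?_) _)
    intro z hz
    rw [Finset.mem_filter] at hz ⊢
    exact hz
  have hD2 : r * D ≤ (r - 1) * X.card ^ 2 := by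
    rw [hD]
    exact h1
  have hg := gg2d d V hd hV h3
  have hch : (((d + 1).choose 2 : ℕ) : ℝ) = (d : ℝ) * ((d : ℝ) + 1) / 2 := by
    rw [Nat.cast_choose_two]
    push_cast
    ring
  have hgr : (gv d V 2 : ℝ) = (fv V 2 : ℝ) - d * (V.card : ℝ) + (d : ℝ) * ((d : ℝ) + 1) / 2 := by
    rw [hg, ← hch]
    push_cast
    ring
  have hVr : (V.card : ℝ) = 2 * X.card := by exact_mod_cast hc
  have hDr : (fv V 2 : ℝ) + X.card ≤ (X.card : ℝ) ^ 2 + D := by exact_mod_cast hD'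
  have hrr : (0 : ℝ) < (r : ℝ) := by exact_mod_cast hr
  have hD3 : (r : ℝ) * D ≤ ((r : ℝ) - 1) * (X.card : ℝ) ^ 2 := by
    have h5 : ((r * D : ℕ) : ℝ) ≤ (((r - 1) * X.card ^ 2 : ℕ) : ℝ) := by exact_mod_cast hD2
    push_cast [Nat.cast_sub hr] at h5
    exact h5
  have hD4 : (D : ℝ) ≤ (1 - 1 / (r : ℝ)) * (X.card : ℝ) ^ 2 := by
    have h6 : (D : ℝ) ≤ ((r : ℝ) - 1) * (X.card : ℝ) ^ 2 / r := by
      rw [le_div_iff₀ hrr]
      linarith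
    refine h6.trans (le_of_eq ?_)
    field_simp
  rw [hgr, hVr]
  have h7 : (1 / 2 - 1 / (4 * (r : ℝ))) * (2 * (X.card : ℝ)) ^ 2 =
      (X.card : ℝ) ^ 2 + (1 - 1 / (r : ℝ)) * (X.card : ℝ) ^ 2 := by
    field_simp
    ring
  rw [h7]
  linarith

end Pool.CS8
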