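import Mathlib

/-!
Turan's theorem for the ordered adjacent pairs inside a finite set of vertices.
-/

set_option autoImplicit false

open Finset

namespace Pool.CS8

open Classical in
/-- Turan's bound for the ordered adjacent pairs in `X`, if `X` has no clique with `r + 1` elements -/
theorem tur {α : Type} (G : SimpleGraph α) (X : Finset α) (r : ℕ) (hr : 0 < r)
    (h : ∀ T : Finset α, T ⊆ X → T.card = r + 1 → ∃ x ∈ T, ∃ y ∈ T, x ≠ y ∧ ¬ G.Adj x y) :
    r * ((X ×ˢ X).filter fun z => G.Adj z.1 z.2).card ≤ (r - 1) * X.card ^ 2 := by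
  let H : SimpleGraph X := G.comap (fun x : X => (x : α))
  have hadj : ∀ x y : X, H.Adj x y ↔ G.Adj x y := fun x y => Iff.rfl
  have cf : H.CliqueFree (r + 1) := by
    intro T hT
    rw [SimpleGraph.isNClique_iff] at hT
    obtain ⟨x, hx, y, hy, hxy, hn⟩ := h (T.map ⟨fun x : X => (x : α), Subtype.val_injective⟩)
      (by
        intro z hz
        rw [Finset.mem_map] at hz
        obtain ⟨x, -, rfl⟩ := hz
        exact x.2)
      (by rw [Finset.card_map]; exact hT.2)
    rw [Finset.mem_map] at hx hy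
    obtain ⟨x', hx', rfl⟩ := hx
    obtain ⟨y', hy', rfl⟩ := hy
    exact hn (hT.1 (Finset.mem_coe.2 hx') (Finset.mem_coe.2 hy') fun he => hxy (by rw [he]))
  obtain ⟨M, _, maxM⟩ := SimpleGraph.exists_isTuranMaximal (V := X) hr
  have h1 : H.edgeFinset.card ≤ M.edgeFinset.card := maxM.2 cf
  have h2 : M.edgeFinset.card = (SimpleGraph.turanGraph (Fintype.card X) r).edgeFinset.card :=
    ((SimpleGraph.isTuranMaximal_iff_nonempty_iso_turanGraph hr).mp maxM).some.card_edgeFinset_eq
  have h3 := SimpleGraph.mul_card_edgeFinset_turanGraph_le (n := Fintype.card X) (r := r)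
  have h4 : ∑ v : X, H.degree v = 2 * H.edgeFinset.card := H.sum_degrees_eq_twice_card_edges
  have h5 : ((X ×ˢ X).filter fun z => G.Adj z.1 z.2).card = ∑ v : X, H.degree v := by
    rw [Finset.card_filter, Finset.sum_product,
      ← Finset.sum_coe_sort X (fun x => ∑ y ∈ X, if G.Adj x y then 1 else 0)]
    refine Finset.sum_congr rfl fun x _ => ?_
    rw [← SimpleGraph.card_neighborFinset_eq_degree, SimpleGraph.neighborFinset_eq_filter,
      Finset.card_filter, ← Finset.sum_coe_sort X (fun y => if G.Adj (x : α) y then 1 else 0)]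
    rfl
  rw [h5, h4]
  rw [Fintype.card_coe] at h2 h3
  calc r * (2 * H.edgeFinset.card) = 2 * r * H.edgeFinset.card := by ring
    _ ≤ 2 * r * (SimpleGraph.turanGraph X.card r).edgeFinset.card :=
        Nat.mul_le_mul_left _ (h1.trans (le_of_eq h2))
    _ ≤ (r - 1) * X.card ^ 2 := h3

end Pool.CS8
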