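import Pool.Agent.CS4.Stmts
import Pool.Agent.CS4.G2
import Pool.Agent.CS4.Cls

/-!
# CS8: no large clique in the graph of the doubly joined pairs (volume argument)
-/

set_option autoImplicit false

open Finset MeasureTheory Topology

noncomputable section

namespace Pool.CS8

open Pool.CS4

/-- the open polytope -/
def O {d : ℕ} (V : Finset (E d)) : Set (E d) := interior (convexHull ℝ (V : Set (E d)))

lemma lt_one {d : ℕ} {V : Finset (E d)} (l : E d →ₗ[ℝ] ℝ) (hl : ∀ v ∈ V, l v ≤ 1) {w : E d}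
    (hw : l w ≠ 0) {x : E d} (hx : x ∈ O V) : l x < 1 := by
  have hle : ∀ y ∈ convexHull ℝ (V : Set (E d)), l y ≤ 1 := by
    have h1 : convexHull ℝ (V : Set (E d)) ⊆ {y | l y ≤ 1} :=
      convexHull_min (fun v hv => hl v hv) (convex_halfSpace_le l.isLinear 1)
    exact fun y hy => h1 hy
  obtain ⟨w', hw'⟩ : ∃ w' : E d, 0 < l w' := by
    rcases lt_or_gt_of_ne hw with h | h
    · exact ⟨-w, by rw [map_neg]; linarith⟩
    · exact ⟨w, h⟩
  have h1 : ∀ᶠ t : ℝ in 𝓝 0, x + t • w' ∈ convexHull ℝ (V : Set (E d)) := by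
    have hc : Continuous fun t : ℝ => x + t • w' := by fun_prop
    have h2 := hc.tendsto 0
    simp only [zero_smul, add_zero] at h2
    exact h2.eventually (mem_interior_iff_mem_nhds.1 hx)
  have h2 : ∀ᶠ t : ℝ in 𝓝[>] 0, x + t • w' ∈ convexHull ℝ (V : Set (E d)) :=
    h1.filter_mono nhdsWithin_le_nhds
  obtain ⟨t, ht, ht0⟩ := (h2.and self_mem_nhdsWithin).exists
  have h3 := hle _ ht
  rw [map_add, map_smul, smul_eq_mul] at h3
  have h4 : 0 < t * l w' := mul_pos ht0 hw'
  linarith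

/-- separation of the half-size copies at `u` and at `w` -/
def Sep {d : ℕ} (V : Finset (E d)) (u w : E d) : Prop :=
  ∃ l : E d →ₗ[ℝ] ℝ, (∀ v ∈ V, |l v| ≤ 1) ∧ l u = 1 ∧ l w = -1

lemma Sep.symm {d : ℕ} {V : Finset (E d)} {u w : E d} (h : Sep V u w) : Sep V w u := by
  obtain ⟨l, h1, h2, h3⟩ := h
  refine ⟨-l, fun v hv => ?_, ?_, ?_⟩
  · rw [LinearMap.neg_apply, abs_neg]
    exact h1 v hv
  · rw [LinearMap.neg_apply, h3, neg_neg]
  · rw [LinearMap.neg_apply, h2]

lemma Sep.neg {d : ℕ} {V : Finset (E d)} {u w : E d} (h : Sep V u w) : Sep V (-u) (-w) := by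
  obtain ⟨l, h1, h2, h3⟩ := h
  refine ⟨-l, fun v hv => ?_, ?_, ?_⟩
  · rw [LinearMap.neg_apply, abs_neg]
    exact h1 v hv
  · rw [LinearMap.neg_apply, map_neg, neg_neg, h2]
  · rw [LinearMap.neg_apply, map_neg, neg_neg, h3]

/-- a strictly supporting functional at a vertex -/
lemma vert {d : ℕ} {V : Finset (E d)} (hV : IsCSSimplicial d V) (h0 : (0 : E d) ∉ V) {v : E d}
    (hv : v ∈ V) : ∃ l : E d →ₗ[ℝ] ℝ, l v = 1 ∧ (∀ w ∈ V, w ≠ v → l w < 1) ∧
      ∀ w ∈ V, |l w| ≤ 1 := by
  obtain ⟨-, l, c, h1, h2⟩ := g2_vertex V hV.ext v hv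
  have hlv : l v = c := h1 v (by simp)
  have hne : -v ≠ v := fun h => h0 (by rw [← neg_eq_self.1 h]; exact hv)
  have hc : 0 < c := by
    have := h2 (-v) (hV.symm v hv) (by simpa using hne)
    rw [map_neg] at this
    linarith
  have h3 : ∀ w ∈ V, w ≠ v → (c⁻¹ • l) w < 1 := by
    intro w hw hwv
    have := h2 w hw (by simpa using hwv)
    rw [LinearMap.smul_apply, smul_eq_mul, inv_mul_lt_iff₀ hc, mul_one]
    exact this
  have h4 : (c⁻¹ • l) v = 1 := by
    rw [LinearMap.smul_apply, hlv, smul_eq_mul, inv_mul_cancel₀ hc.ne']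
  have h5 : ∀ w ∈ V, (c⁻¹ • l) w ≤ 1 := by
    intro w hw
    by_cases h : w = v
    · rw [h, h4]
    · exact (h3 w hw h).le
  refine ⟨c⁻¹ • l, h4, h3, fun w hw => ?_⟩
  have h6 := h5 w hw
  have h7 := h5 (-w) (hV.symm w hw)
  rw [map_neg] at h7
  exact abs_le.2 ⟨by linarith, h6⟩

/-- the half-size copy at `u` -/
def U {d : ℕ} (V : Finset (E d)) (u : E d) : Set (E d) :=
  (fun x : E d => (2 : ℝ) • x) ⁻¹' ((fun y : E d => y + -u) ⁻¹' O V)

lemma mem_U {d : ℕ} {V : Finset (E d)} {u x : E d} : x ∈ U V u ↔ (2 : ℝ) • x + -u ∈ O V := Iff.rfl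

lemma U_open {d : ℕ} (V : Finset (E d)) (u : E d) : IsOpen (U V u) := by
  have h1 : Continuous fun x : E d => (2 : ℝ) • x := by fun_prop
  have h2 : Continuous fun y : E d => y + -u := by fun_prop
  exact (isOpen_interior.preimage h2).preimage h1

lemma U_vol {d : ℕ} (V : Finset (E d)) (u : E d) :
    volume (U V u) = ENNReal.ofReal ((2 ^ d : ℝ)⁻¹) * volume (O V) := by
  unfold U
  rw [Measure.addHaar_preimage_smul volume (by norm_num : (2 : ℝ) ≠ 0), measure_preimage_add_right,
    Module.finrank_fin_fun]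
  congr 2
  rw [abs_of_nonneg (by positivity)]

lemma U_sub {d : ℕ} {V : Finset (E d)} {u : E d} (hu : u ∈ V) : U V u ⊆ O V := by
  intro x hx
  rw [mem_U] at hx
  have h1 : x = (1 / 2 : ℝ) • ((2 : ℝ) • x + -u) + (1 / 2 : ℝ) • u := by
    rw [smul_add, smul_smul, smul_neg]
    norm_num
  rw [h1]
  exact (convex_convexHull ℝ _).combo_interior_closure_mem_interior hx
    (subset_closure (subset_convexHull ℝ _ hu)) (by norm_num) (by norm_num) (by norm_num)

lemma U_disj {d : ℕ} {V : Finset (E d)} {u w : E d} (h : Sep V u w) : Disjoint (U V u) (U V w) := by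
  obtain ⟨l, h1, h2, h3⟩ := h
  rw [Set.disjoint_left]
  intro x hx hx'
  rw [mem_U] at hx hx'
  have hu0 : l u ≠ 0 := by rw [h2]; norm_num
  have hw0 : (-l) u ≠ 0 := by rw [LinearMap.neg_apply, h2]; norm_num
  have e1 := lt_one l (fun v hv => (abs_le.1 (h1 v hv)).2) hu0 hx'
  have e2 := lt_one (-l) (fun v hv => by
    rw [LinearMap.neg_apply]
    linarith [(abs_le.1 (h1 v hv)).1]) hw0 hx
  rw [LinearMap.neg_apply] at e2
  simp only [map_add, map_smul, map_neg, smul_eq_mul, h2, h3] at e1 e2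
  linarith

/-- **no clique with `2 ^ (d - 1)` elements** -/
theorem no_clique {d : ℕ} (hd : 1 ≤ d) {V X T : Finset (E d)} (hV : IsCSSimplicial d V)
    (h0 : (0 : E d) ∉ V) (hX : X ⊆ V) (hX1 : ∀ x ∈ X, -x ∉ X) (hX2 : ∀ v ∈ V, v ∈ X ∨ -v ∈ X)
    (hT : T ⊆ X) (hTc : T.card = 2 ^ (d - 1)) (hlt : T.card < X.card)
    (hD : ∀ u ∈ T, ∀ w ∈ T, u ≠ w → Dbl X u w) : False := by
  classical
  have hTV : ∀ t ∈ T, t ∈ V := fun t ht => hX (hT ht)
  -- bounds on `V` from bounds on `X`
  have hbd : ∀ (l : E d →ₗ[ℝ] ℝ), (∀ x ∈ X, |l x| ≤ 1) → ∀ v ∈ V, |l v| ≤ 1 := by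
    intro l hl v hv
    rcases hX2 v hv with h | h
    · exact hl v h
    · have := hl (-v) h
      rwa [map_neg, abs_neg] at this
  have hs1 : ∀ u ∈ T, ∀ w ∈ T, u ≠ w → Sep V u w := by
    intro u hu w hw huw
    obtain ⟨-, l, h1, h2, h3⟩ := hD u hu w hw huw
    refine ⟨l, hbd l fun x hx => ?_, h1, h2⟩
    by_cases e1 : x = u
    · rw [e1, h1, abs_one]
    by_cases e2 : x = w
    · rw [e2, h2, abs_neg, abs_one]
    exact (h3 x hx e1 e2).le
  have hs2 : ∀ u ∈ T, ∀ w ∈ T, u ≠ w → Sep V u (-w) := by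
    intro u hu w hw huw
    obtain ⟨⟨l, h1, h2, h3⟩, -⟩ := hD u hu w hw huw
    refine ⟨l, hbd l fun x hx => ?_, h1, by rw [map_neg, h2]⟩
    by_cases e1 : x = u
    · rw [e1, h1, abs_one]
    by_cases e2 : x = w
    · rw [e2, h2, abs_one]
    exact (h3 x hx e1 e2).le
  have hs3 : ∀ u ∈ T, Sep V u (-u) := by
    intro u hu
    obtain ⟨l, h1, -, h3⟩ := vert hV h0 (hTV u hu)
    exact ⟨l, h3, h1, by rw [map_neg, h1]⟩
  -- the signed clique
  set S : Finset (E d) := T ∪ T.image (fun t => -t) with hS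
  have hSV : ∀ u ∈ S, u ∈ V := by
    intro u hu
    rcases Finset.mem_union.1 hu with h | h
    · exact hTV u h
    · obtain ⟨t, ht, rfl⟩ := Finset.mem_image.1 h
      exact hV.symm t (hTV t ht)
  have hSc : S.card = 2 ^ d := by
    have h2 : Disjoint T (T.image (fun t => -t)) := by
      rw [Finset.disjoint_left]
      intro x hx h
      obtain ⟨y, hy, rfl⟩ := Finset.mem_image.1 h
      exact hX1 y (hT hy) (hT hx)
    rw [hS, Finset.card_union_of_disjoint h2, Finset.card_image_of_injective _ neg_injective, hTc]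
    obtain ⟨e, rfl⟩ : ∃ e, d = e + 1 := ⟨d - 1, by omega⟩
    rw [Nat.add_sub_cancel, pow_succ]
    omega
  have hSep : ∀ u ∈ S, ∀ w ∈ S, u ≠ w → Sep V u w := by
    intro u hu w hw huw
    rcases Finset.mem_union.1 hu with h | h
    · rcases Finset.mem_union.1 hw with h' | h'
      · exact hs1 u h w h' huw
      · obtain ⟨t, ht, rfl⟩ := Finset.mem_image.1 h'
        by_cases e : u = t
        · rw [e]
          exact hs3 t ht
        · exact hs2 u h t ht e
    · obtain ⟨s, hs, rfl⟩ := Finset.mem_image.1 h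
      rcases Finset.mem_union.1 hw with h' | h'
      · by_cases e : w = s
        · rw [e]
          exact (hs3 s hs).symm
        · exact (hs2 w h' s hs e).symm
      · obtain ⟨t, ht, rfl⟩ := Finset.mem_image.1 h'
        have e : s ≠ t := fun e => huw (by rw [e])
        exact (hs1 s hs t ht e).neg
  -- a further vertex
  obtain ⟨p, hp, hpT⟩ : ∃ p ∈ X, p ∉ T := by
    by_contra h
    push Not at h
    have := Finset.card_le_card (show X ⊆ T from h)
    omega
  obtain ⟨l, hl1, hl2, hl3⟩ := vert hV h0 (hX hp)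
  have hSl : ∀ u ∈ S, l u < 1 := by
    intro u hu
    refine hl2 u (hSV u hu) ?_
    rintro rfl
    rcases Finset.mem_union.1 hu with h | h
    · exact hpT h
    · obtain ⟨t, ht, e⟩ := Finset.mem_image.1 h
      have h3 := hX1 t (hT ht)
      apply h3
      have e' : -t = u := e
      rw [e']
      exact hp
  have hSn : S.Nonempty := by
    rw [← Finset.card_pos, hSc]
    positivity
  obtain ⟨u₀, hu₀, hmax⟩ := S.exists_max_image l hSn
  set δ : ℝ := (1 - l u₀) / 2 with hδ
  have hδ0 : 0 < δ := by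
    have := hSl u₀ hu₀
    rw [hδ]
    linarith
  have hlc : Continuous l := LinearMap.continuous_of_finiteDimensional l
  have hp0 : l p ≠ 0 := by rw [hl1]; norm_num
  -- the room near `p`
  set W : Set (E d) := O V ∩ {x | 1 - δ < l x} with hW
  have hWo : IsOpen W := isOpen_interior.inter (isOpen_lt continuous_const hlc)
  have hWn : W.Nonempty := by
    obtain ⟨x₀, hx₀⟩ := hV.full
    have h1 : l x₀ < 1 := lt_one l (fun v hv => (abs_le.1 (hl3 v hv)).2) hp0 hx₀
    set a : ℝ := 1 - l x₀ with ha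
    have ha0 : 0 < a := by rw [ha]; linarith
    set η : ℝ := δ / (2 * a + δ) with hη
    have hden : 0 < 2 * a + δ := by linarith
    have hη0 : 0 < η := div_pos hδ0 hden
    have hη1 : η ≤ 1 := by
      rw [hη, div_le_one hden]
      linarith
    have hηa : η * a < δ := by
      rw [hη, div_mul_eq_mul_div, div_lt_iff₀ hden]
      nlinarith
    refine ⟨η • x₀ + (1 - η) • p, ?_, ?_⟩
    · exact (convex_convexHull ℝ _).combo_interior_closure_mem_interior hx₀
        (subset_closure (subset_convexHull ℝ _ (hX hp))) hη0 (by linarith) (by ring)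
    · change 1 - δ < l (η • x₀ + (1 - η) • p)
      rw [map_add, map_smul, map_smul, smul_eq_mul, smul_eq_mul, hl1]
      have h2 : l x₀ = 1 - a := by rw [ha]; ring
      rw [h2]
      nlinarith
  have hWpos : 0 < volume W := hWo.measure_pos volume hWn
  have hdisj : Disjoint W (⋃ u ∈ S, U V u) := by
    rw [Set.disjoint_left]
    intro x hx hx'
    simp only [Set.mem_iUnion] at hx'
    obtain ⟨u, hu, hxu⟩ := hx'
    rw [mem_U] at hxu
    have h1 := lt_one l (fun v hv => (abs_le.1 (hl3 v hv)).2) hp0 hxu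
    simp only [map_add, map_smul, map_neg, smul_eq_mul] at h1
    have h2 := hmax u hu
    have h3 : 1 - δ < l x := hx.2
    rw [hδ] at h3
    linarith
  have hsub : W ∪ (⋃ u ∈ S, U V u) ⊆ O V := by
    refine Set.union_subset Set.inter_subset_left ?_
    exact Set.iUnion₂_subset fun u hu => U_sub (hSV u hu)
  have hvol : volume (⋃ u ∈ S, U V u) = volume (O V) := by
    rw [measure_biUnion_finset (fun u hu w hw huw => U_disj (hSep u hu w hw huw))
      (fun u _ => (U_open V u).measurableSet)]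
    rw [Finset.sum_congr rfl fun u _ => U_vol V u, Finset.sum_const, hSc, nsmul_eq_mul, ← mul_assoc]
    have : ((2 ^ d : ℕ) : ENNReal) * ENNReal.ofReal ((2 ^ d : ℝ)⁻¹) = 1 := by
      rw [ENNReal.ofReal_inv_of_pos (by positivity), ENNReal.ofReal_pow (by norm_num)]
      push_cast
      rw [ENNReal.ofReal_ofNat]
      exact ENNReal.mul_inv_cancel (by positivity) (ENNReal.pow_ne_top (by norm_num))
    rw [this, one_mul]
  have hfin : volume (O V) ≠ ⊤ := by
    have h1 : IsCompact (convexHull ℝ (V : Set (E d))) := V.finite_toSet.isCompact_convexHull ℝ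
    exact ((measure_mono interior_subset).trans_lt h1.measure_lt_top).ne
  have h1 : volume W + volume (O V) ≤ volume (O V) := by
    calc volume W + volume (O V) = volume W + volume (⋃ u ∈ S, U V u) := by rw [hvol]
      _ = volume (W ∪ ⋃ u ∈ S, U V u) := by
        rw [measure_union hdisj]
        exact (isOpen_biUnion fun u _ => U_open V u).measurableSet
      _ ≤ volume (O V) := measure_mono hsub
  have h2 : volume (O V) < volume W + volume (O V) := by
    rw [add_comm]
    exact ENNReal.lt_add_right hfin hWpos.ne'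
  exact absurd h1 (not_le.2 h2)

end Pool.CS8
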