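import Pool.Agent.CS8.Cou
import Pool.Agent.CS8.Vol

/-!
The upper bound for `g_2` of a centrally symmetric simplicial `d`-polytope with more than `2^d`
vertices.
-/

set_option autoImplicit false

open Finset

noncomputable section

namespace Pool.CS8

open Pool.CS4

/-- the upper bound with `r = 2^(d-1) - 1` -/
theorem up (d : ℕ) (hd : 2 ≤ d) (V : Finset (E d)) (hV : IsCSSimplicial d V)
    (hn : 2 ^ d < V.card) :
    (gv d V 2 : ℝ) ≤ (1 / 2 - 1 / (4 * ((2 ^ (d - 1) - 1 : ℕ) : ℝ))) * (V.card : ℝ) ^ 2 -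
      (d + 1 / 2) * V.card + d * (d + 1) / 2 := by
  have h2 : 2 ^ d = 2 * 2 ^ (d - 1) := by
    obtain ⟨e, rfl⟩ : ∃ e, d = e + 1 := ⟨d - 1, by omega⟩
    rw [Nat.add_sub_cancel, pow_succ]
    ring
  have h4 : 2 ≤ 2 ^ (d - 1) := by
    calc 2 = 2 ^ 1 := by norm_num
      _ ≤ 2 ^ (d - 1) := Nat.pow_le_pow_right (by norm_num) (by omega)
  have h3 : 3 ≤ V.card := by omega
  refine cou d hd V hV h3 (2 ^ (d - 1) - 1) (by omega) ?_
  intro X hX hX1 hX2 hc T hT hTc
  by_contra hcon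
  push Not at hcon
  exact no_clique (by omega) hV (cls_zero hV h3) hX hX1 hX2 hT (by omega) (by omega)
    (fun u hu w hw huw => hcon u hu w hw huw)

end Pool.CS8
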